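import Mathlib

set_option autoImplicit false

/-! Zeitlin's conjecture on Fibonacci and Lucas numbers as sums of two Ulam numbers is false. -/

namespace Pool.Agent.Results.MP_7bafff_nt.Counterexamples

/-- `u 1, u 2, u 3, …` is the Ulam sequence with initial values `1, 2`: for `n ≥ 3`, `u n` is the
least integer greater than `u (n - 1)` that can be written in exactly one way as `u i + u j` with
`1 ≤ i < j < n`. -/
structure IsUlam (u : ℕ → ℕ) : Prop where
  one : u 1 = 1
  two : u 2 = 2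
  step : ∀ n, 3 ≤ n → IsLeast {m : ℕ | u (n - 1) < m ∧
    ∃! p : ℕ × ℕ, 1 ≤ p.1 ∧ p.1 < p.2 ∧ p.2 < n ∧ u p.1 + u p.2 = m} (u n)

/-- the Lucas numbers `2, 1, 3, 4, 7, 11, …` -/
def lucas : ℕ → ℕ
  | 0 => 2
  | 1 => 1
  | n + 2 => lucas (n + 1) + lucas n

/-- `m` is a term of the sequence `u 1, u 2, …` or a sum of two of its terms with distinct
indices. -/
def SumOfAtMostTwo (u : ℕ → ℕ) (m : ℕ) : Prop :=
  (∃ i, 1 ≤ i ∧ u i = m) ∨ ∃ i j, 1 ≤ i ∧ i < j ∧ u i + u j = m

/-! ### The set of Ulam numbers -/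

/-- a set of positive integers satisfying the recursion of the Ulam numbers -/
structure UlamSet (U : ℕ → Prop) : Prop where
  pos : ∀ m, U m → 1 ≤ m
  one : U 1
  two : U 2
  recur : ∀ n, 3 ≤ n → (U n ↔ ∃! p : ℕ × ℕ, p.1 < p.2 ∧ U p.1 ∧ U p.2 ∧ p.1 + p.2 = n)

theorem IsUlam.lt_succ {u : ℕ → ℕ} (h : IsUlam u) {n : ℕ} (hn : 1 ≤ n) : u n < u (n + 1) := by
  rcases Nat.lt_or_ge n 2 with h2 | h2
  · have : n = 1 := by omega
    subst this
    rw [h.one, h.two]; norm_num
  · have := (h.step (n + 1) (by omega)).1.1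
    simpa using this

theorem IsUlam.lt_of_lt {u : ℕ → ℕ} (h : IsUlam u) {i j : ℕ} (hi : 1 ≤ i) (hij : i < j) :
    u i < u j := by
  induction j with
  | zero => omega
  | succ j ih =>
    rcases Nat.lt_or_ge i j with h1 | h1
    · exact (ih h1).trans (h.lt_succ (by omega))
    · have : i = j := by omega
      subst this
      exact h.lt_succ hi

theorem IsUlam.idx_lt {u : ℕ → ℕ} (h : IsUlam u) {i j : ℕ} (hj : 1 ≤ j) (hij : u i < u j) :
    i < j := by
  by_contra hc
  rcases Nat.lt_or_ge j i with h1 | h1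
  · have := h.lt_of_lt hj h1
    omega
  · have : i = j := by omega
    subst this
    omega

theorem IsUlam.idx_eq {u : ℕ → ℕ} (h : IsUlam u) {i j : ℕ} (hi : 1 ≤ i) (hj : 1 ≤ j)
    (hij : u i = u j) : i = j := by
  rcases Nat.lt_trichotomy i j with h1 | h1 | h1
  · have := h.lt_of_lt hi h1
    omega
  · exact h1
  · have := h.lt_of_lt hj h1
    omega

theorem IsUlam.ge {u : ℕ → ℕ} (h : IsUlam u) {n : ℕ} (hn : 1 ≤ n) : n ≤ u n := by
  induction n with
  | zero => omega
  | succ n ih =>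
    rcases Nat.lt_or_ge n 1 with h1 | h1
    · have : n = 0 := by omega
      subst this
      rw [h.one]
    · have := ih h1
      have := h.lt_succ h1
      omega

theorem IsUlam.ulamSet {u : ℕ → ℕ} (h : IsUlam u) : UlamSet (fun m => ∃ i, 1 ≤ i ∧ u i = m) where
  pos := by
    rintro m ⟨i, hi, rfl⟩
    exact hi.trans (h.ge hi)
  one := ⟨1, le_rfl, h.one⟩
  two := ⟨2, by norm_num, h.two⟩
  recur := by
    intro n hn
    constructor
    · rintro ⟨k, hk, rfl⟩
      have hk3 : 3 ≤ k := by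
        by_contra hc
        have : k = 1 ∨ k = 2 := by omega
        rcases this with rfl | rfl
        · rw [h.one] at hn; omega
        · rw [h.two] at hn; omega
      obtain ⟨⟨i, j⟩, ⟨hi, hij, hjk, hs⟩, huniq⟩ := (h.step k hk3).1.2
      refine ⟨(u i, u j), ⟨h.lt_of_lt hi hij, ⟨i, hi, rfl⟩, ⟨j, by simp only at hi hij; omega, rfl⟩, hs⟩, ?_⟩
      rintro ⟨x, y⟩ ⟨hxy, ⟨i', hi', hx⟩, ⟨j', hj', hy⟩, hs'⟩
      simp only at hx hy hs' hxy
      subst hx
      subst hy
      have h1 : i' < j' := h.idx_lt hj' hxy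
      have h2 : j' < k := by
        apply h.idx_lt hk
        have := hi'.trans (h.ge hi')
        omega
      have h3 := huniq (i', j') ⟨hi', h1, h2, hs'⟩
      rw [Prod.mk.injEq] at h3
      rw [h3.1, h3.2]
    · rintro ⟨⟨x, y⟩, ⟨hxy, ⟨i, hi, hx⟩, ⟨j, hj, hy⟩, hs⟩, huniq⟩
      simp only at hx hy hs hxy
      subst hx
      subst hy
      have hex : ∃ k, 1 ≤ k ∧ n ≤ u k := ⟨n, by omega, h.ge (by omega)⟩
      classical
      set k := Nat.find hex with hkdef
      obtain ⟨hk1, hk2⟩ := Nat.find_spec hex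
      rw [← hkdef] at hk1 hk2
      refine ⟨k, hk1, le_antisymm ?_ hk2⟩
      have hk3 : 3 ≤ k := by
        by_contra hc
        have : k = 1 ∨ k = 2 := by omega
        rcases this with h4 | h4
        · rw [h4, h.one] at hk2; omega
        · rw [h4, h.two] at hk2; omega
      have hprev : u (k - 1) < n := by
        have := Nat.find_min hex (m := k - 1) (by omega)
        rw [not_and, not_le] at this
        exact this (by omega)
      apply (h.step k hk3).2
      refine ⟨hprev, (i, j), ⟨hi, h.idx_lt hj hxy, ?_, hs⟩, ?_⟩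
      · apply h.idx_lt hk1
        have := hi.trans (h.ge hi)
        show u j < u k
        omega
      · rintro ⟨i', j'⟩ ⟨hi', hij', hjk', hs'⟩
        simp only at hi' hij' hjk' hs'
        have h3 := huniq (u i', u j') ⟨h.lt_of_lt hi' hij', ⟨i', hi', rfl⟩, ⟨j', by omega, rfl⟩, hs'⟩
        rw [Prod.mk.injEq] at h3
        rw [Prod.mk.injEq]
        exact ⟨h.idx_eq hi' hi h3.1, h.idx_eq (by omega) hj h3.2⟩

/-! ### Existence -/

/-- the set of Ulam numbers, by strong recursion -/
def V (n : ℕ) : Prop :=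
  n = 1 ∨ n = 2 ∨ (3 ≤ n ∧ ∃! p : Fin n × Fin n, p.1 < p.2 ∧ V p.1 ∧ V p.2 ∧
    (p.1 : ℕ) + p.2 = n)
termination_by n
decreasing_by
  · exact p.1.2
  · exact p.2.2

theorem V_ulamSet : UlamSet V where
  pos := by
    intro m hm
    rw [V] at hm
    omega
  one := by rw [V]; exact Or.inl rfl
  two := by rw [V]; exact Or.inr (Or.inl rfl)
  recur := by
    intro n hn
    have hpos : ∀ m, V m → 1 ≤ m := by
      intro m hm
      rw [V] at hm
      omega
    constructor
    · intro h
      rw [V] at h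
      rcases h with h | h | ⟨_, ⟨⟨x, hx⟩, ⟨y, hy⟩⟩, ⟨h1, h2, h3, h4⟩, huniq⟩
      · omega
      · omega
      · refine ⟨(x, y), ⟨h1, h2, h3, h4⟩, ?_⟩
        rintro ⟨x', y'⟩ ⟨h1', h2', h3', h4'⟩
        simp only at h1' h2' h3' h4'
        have e1 := hpos _ h2'
        have e2 := hpos _ h3'
        have := huniq (⟨x', by omega⟩, ⟨y', by omega⟩) ⟨h1', h2', h3', h4'⟩
        simpa using this
    · rintro ⟨⟨x, y⟩, ⟨h1, h2, h3, h4⟩, huniq⟩
      simp only at h1 h2 h3 h4
      have e1 := hpos _ h2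
      have e2 := hpos _ h3
      rw [V]
      refine Or.inr (Or.inr ⟨hn, (⟨x, by omega⟩, ⟨y, by omega⟩), ⟨h1, h2, h3, h4⟩, ?_⟩)
      rintro ⟨⟨x', hx'⟩, ⟨y', hy'⟩⟩ ⟨h1', h2', h3', h4'⟩
      have := huniq (x', y') ⟨h1', h2', h3', h4'⟩
      simpa using this

theorem UlamSet.infinite {U : ℕ → Prop} (h : UlamSet U) : (Set.ofPred U).Infinite := by
  intro hfin
  classical
  set F := hfin.toFinset with hF
  have hmem : ∀ m, m ∈ F ↔ U m := by
    intro m
    rw [hF, Set.Finite.mem_toFinset]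
    rfl
  have h1 : 1 ∈ F := (hmem 1).2 h.one
  have h2 : 2 ∈ F := (hmem 2).2 h.two
  have hne : F.Nonempty := ⟨1, h1⟩
  set y := F.max' hne with hy
  have hyF : y ∈ F := F.max'_mem hne
  have hy2 : 2 ≤ y := F.le_max' 2 h2
  have hne2 : (F.erase y).Nonempty := ⟨1, Finset.mem_erase.2 ⟨by omega, h1⟩⟩
  set x := (F.erase y).max' hne2 with hx
  have hxF : x ∈ F.erase y := (F.erase y).max'_mem hne2
  obtain ⟨hxy, hxF'⟩ := Finset.mem_erase.1 hxF
  have hxy' : x < y := lt_of_le_of_ne (F.le_max' x hxF') hxy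
  have hx1 : 1 ≤ x := h.pos x ((hmem x).1 hxF')
  have : U (x + y) := by
    rw [h.recur (x + y) (by omega)]
    refine ⟨(x, y), ⟨hxy', (hmem x).1 hxF', (hmem y).1 hyF, rfl⟩, ?_⟩
    rintro ⟨a, b⟩ ⟨hab, ha, hb, hs⟩
    simp only at hab ha hb hs
    have hb' : b ≤ y := F.le_max' b ((hmem b).2 hb)
    have ha' : a ≤ x := (F.erase y).le_max' a (Finset.mem_erase.2 ⟨by omega, (hmem a).2 ha⟩)
    rw [Prod.mk.injEq]
    omega
  have := F.le_max' (x + y) ((hmem _).2 this)
  omega

theorem exists_isUlam : ∃ u, IsUlam u := by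
  classical
  have h := V_ulamSet
  have hinf := h.infinite
  refine ⟨fun n => Nat.nth V (n - 1), ?_, ?_, ?_⟩
  · show Nat.nth V 0 = 1
    have h1 : Nat.count V 1 = 0 := by
      rw [Nat.count_succ, Nat.count_zero]
      have : ¬ V 0 := fun h0 => by have := h.pos 0 h0; omega
      simp [this]
    have := Nat.nth_count h.one
    rwa [h1] at this
  · show Nat.nth V 1 = 2
    have h1 : Nat.count V 2 = 1 := by
      rw [Nat.count_succ, Nat.count_succ, Nat.count_zero]
      have : ¬ V 0 := fun h0 => by have := h.pos 0 h0; omega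
      simp [this, h.one]
    have := Nat.nth_count h.two
    rwa [h1] at this
  · intro n hn
    have hmem : ∀ k, V (Nat.nth V k) := fun k => Nat.nth_mem_of_infinite hinf k
    have hmono : StrictMono (Nat.nth V) := Nat.nth_strictMono hinf
    have hex : ∀ m, V m → ∃ k, Nat.nth V k = m := fun m hm => ⟨_, Nat.nth_count hm⟩
    have hu2 : Nat.nth V 1 = 2 := by
      have h1 : Nat.count V 2 = 1 := by
        rw [Nat.count_succ, Nat.count_succ, Nat.count_zero]
        have : ¬ V 0 := fun h0 => by have := h.pos 0 h0; omega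
        simp [this, h.one]
      have := Nat.nth_count h.two
      rwa [h1] at this
    -- representation of `m` by values or by indices
    have key : ∀ m, Nat.nth V (n - 1 - 1) < m → m ≤ Nat.nth V (n - 1) →
        ((∃! p : ℕ × ℕ, 1 ≤ p.1 ∧ p.1 < p.2 ∧ p.2 < n ∧
          Nat.nth V (p.1 - 1) + Nat.nth V (p.2 - 1) = m) ↔ V m) := by
      intro m hm1 hm2
      have hm3 : 3 ≤ m := by
        have : Nat.nth V 1 ≤ Nat.nth V (n - 1 - 1) := hmono.monotone (by omega)
        omega
      rw [h.recur m hm3]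
      constructor
      · rintro ⟨⟨i, j⟩, ⟨hi, hij, hj, hs⟩, huniq⟩
        simp only at hi hij hj hs
        refine ⟨(Nat.nth V (i - 1), Nat.nth V (j - 1)), ⟨hmono (by omega), hmem _, hmem _, hs⟩, ?_⟩
        rintro ⟨x, y⟩ ⟨hxy, hx, hy, hs'⟩
        simp only at hxy hx hy hs'
        obtain ⟨a, rfl⟩ := hex x hx
        obtain ⟨b, rfl⟩ := hex y hy
        have h1 : a < b := hmono.lt_iff_lt.1 hxy
        have h2 : Nat.nth V b < Nat.nth V (n - 1) := by
          have := h.pos _ hx
          omega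
        have h3 : b < n - 1 := hmono.lt_iff_lt.1 h2
        have := huniq (a + 1, b + 1) ⟨by simp, by simpa using h1, by simp only; omega,
          by simpa using hs'⟩
        rw [Prod.mk.injEq] at this
        rw [← this.1, ← this.2]
        simp
      · rintro ⟨⟨x, y⟩, ⟨hxy, hx, hy, hs⟩, huniq⟩
        simp only at hxy hx hy hs
        obtain ⟨a, rfl⟩ := hex x hx
        obtain ⟨b, rfl⟩ := hex y hy
        have h1 : a < b := hmono.lt_iff_lt.1 hxy
        have h2 : Nat.nth V b < Nat.nth V (n - 1) := by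
          have := h.pos _ hx
          omega
        have h3 : b < n - 1 := hmono.lt_iff_lt.1 h2
        refine ⟨(a + 1, b + 1), ⟨by simp, by simpa using h1, by simp only; omega,
          by simpa using hs⟩, ?_⟩
        rintro ⟨i, j⟩ ⟨hi, hij, hj, hs'⟩
        simp only at hi hij hj hs'
        have := huniq (Nat.nth V (i - 1), Nat.nth V (j - 1)) ⟨hmono (by omega), hmem _, hmem _, hs'⟩
        rw [Prod.mk.injEq] at this
        have e1 := hmono.injective this.1
        have e2 := hmono.injective this.2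
        rw [Prod.mk.injEq]
        omega
    constructor
    · have hlt : Nat.nth V (n - 1 - 1) < Nat.nth V (n - 1) := hmono (by omega)
      exact ⟨hlt, (key _ hlt le_rfl).2 (hmem _)⟩
    · rintro m ⟨hm1, hm2⟩
      by_contra hc
      rw [not_le] at hc
      have hVm := (key m hm1 hc.le).1 hm2
      obtain ⟨k, rfl⟩ := hex m hVm
      have h1 := hmono.lt_iff_lt.1 hm1
      have h2 := hmono.lt_iff_lt.1 hc
      omega

/-! ### The computation -/

/-- bit `i` of `a` is set -/
def bit (a i : ℕ) : Bool := Nat.beq (Nat.land (Nat.shiftRight a i) 1) 1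

theorem bit_iff (a i : ℕ) : bit a i = true ↔ a.testBit i = true := by
  have e1 : Nat.land (Nat.shiftRight a i) 1 = (a >>> i) &&& 1 := rfl
  have e2 : a.testBit i = ((a >>> i) &&& 1 != 0) := by
    rw [Nat.testBit, Nat.and_comm]
  unfold bit
  rw [e1, e2, Nat.and_one_is_mod]
  have : (a >>> i) % 2 = 0 ∨ (a >>> i) % 2 = 1 := by omega
  rcases this with h | h <;> rw [h] <;> simp

/-- sieve: `u` holds the Ulam numbers `< n`, `o` the numbers with at least one representation,
`m` those with at least two; the result says that the bits `q1, q2` of `u` and `o` are not set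
after `k` steps. -/
def loop (q1 q2 : ℕ) : ℕ → ℕ → ℕ → ℕ → ℕ → Bool
  | 0, _, u, o, _ => !(bit u q1) && !(bit o q1) && !(bit u q2) && !(bit o q2)
  | k + 1, n, u, o, m =>
    match bit o n && !(bit m n) with
    | true => loop q1 q2 k (n + 1) (Nat.lor u (Nat.shiftLeft 1 n)) (Nat.lor o (Nat.shiftLeft u n))
        (Nat.lor m (Nat.land o (Nat.shiftLeft u n)))
    | false => loop q1 q2 k (n + 1) u o m

/-- `s` has a representation by members of `U` below `n` -/
def Once (U : ℕ → Prop) (n s : ℕ) : Prop := ∃ x y, x < y ∧ y < n ∧ U x ∧ U y ∧ x + y = s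

/-- `s` has two representations by members of `U` below `n` -/
def Twice (U : ℕ → Prop) (n s : ℕ) : Prop :=
  ∃ x y x' y', x < y ∧ y < n ∧ U x ∧ U y ∧ x + y = s ∧ x' < y' ∧ y' < n ∧ U x' ∧ U y' ∧
    x' + y' = s ∧ y < y'

theorem ulam_iff {U : ℕ → Prop} (h : UlamSet U) {n : ℕ} (hn : 3 ≤ n) :
    U n ↔ Once U n n ∧ ¬ Twice U n n := by
  rw [h.recur n hn]
  constructor
  · rintro ⟨⟨x, y⟩, ⟨h1, h2, h3, h4⟩, huniq⟩
    simp only at h1 h2 h3 h4
    have e1 := h.pos _ h2
    refine ⟨⟨x, y, h1, by omega, h2, h3, h4⟩, ?_⟩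
    rintro ⟨a, b, a', b', h5, h6, h7, h8, h9, h10, h11, h12, h13, h14, h15⟩
    have g1 := huniq (a, b) ⟨h5, h7, h8, h9⟩
    have g2 := huniq (a', b') ⟨h10, h12, h13, h14⟩
    rw [Prod.mk.injEq] at g1 g2
    omega
  · rintro ⟨⟨x, y, h1, h2, h3, h4, h5⟩, hno⟩
    refine ⟨(x, y), ⟨h1, h3, h4, h5⟩, ?_⟩
    rintro ⟨x', y'⟩ ⟨h1', h3', h4', h5'⟩
    simp only at h1' h3' h4' h5'
    have e1 := h.pos _ h3
    have e2 := h.pos _ h3'
    rw [Prod.mk.injEq]
    rcases Nat.lt_trichotomy y y' with g | g | g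
    · exact absurd ⟨x, y, x', y', h1, h2, h3, h4, h5, h1', by omega, h3', h4', h5', g⟩ hno
    · omega
    · exact absurd ⟨x', y', x, y, h1', by omega, h3', h4', h5', h1, h2, h3, h4, h5, g⟩ hno

/-- the invariant of the sieve -/
structure Inv (U : ℕ → Prop) (n u o m : ℕ) : Prop where
  hu : ∀ i, u.testBit i = true ↔ U i ∧ i < n
  ho : ∀ s, o.testBit s = true ↔ Once U n s
  hm : ∀ s, m.testBit s = true ↔ Twice U n s

theorem Inv.next_false {U : ℕ → Prop} {n u o m : ℕ} (h : Inv U n u o m) (hn : ¬ U n) :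
    Inv U (n + 1) u o m where
  hu := by
    intro i
    rw [h.hu]
    constructor
    · rintro ⟨h1, h2⟩
      exact ⟨h1, by omega⟩
    · rintro ⟨h1, h2⟩
      refine ⟨h1, ?_⟩
      rcases Nat.lt_or_ge i n with h3 | h3
      · exact h3
      · have : i = n := by omega
        subst this
        exact absurd h1 hn
  ho := by
    intro s
    rw [h.ho]
    constructor
    · rintro ⟨x, y, h1, h2, h3⟩
      exact ⟨x, y, h1, by omega, h3⟩
    · rintro ⟨x, y, h1, h2, h3, h4, h5⟩
      refine ⟨x, y, h1, ?_, h3, h4, h5⟩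
      rcases Nat.lt_or_ge y n with h6 | h6
      · exact h6
      · have : y = n := by omega
        subst this
        exact absurd h4 hn
  hm := by
    intro s
    rw [h.hm]
    constructor
    · rintro ⟨x, y, x', y', h1, h2, h3, h4, h5, h6, h7, h8⟩
      exact ⟨x, y, x', y', h1, by omega, h3, h4, h5, h6, by omega, h8⟩
    · rintro ⟨x, y, x', y', h1, h2, h3, h4, h5, h6, h7, h8, h9, h10, h11⟩
      have h12 : y' < n := by
        rcases Nat.lt_or_ge y' n with h12 | h12
        · exact h12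
        · have : y' = n := by omega
          subst this
          exact absurd h9 hn
      exact ⟨x, y, x', y', h1, by omega, h3, h4, h5, h6, h12, h8, h9, h10, h11⟩

theorem Inv.next_true {U : ℕ → Prop} {n u o m : ℕ} (h : Inv U n u o m) (hn : U n) :
    Inv U (n + 1) (Nat.lor u (Nat.shiftLeft 1 n)) (Nat.lor o (Nat.shiftLeft u n))
      (Nat.lor m (Nat.land o (Nat.shiftLeft u n))) := by
  have hsh : ∀ s, (u <<< n).testBit s = true ↔ ∃ x, x < n ∧ U x ∧ x + n = s := by
    intro s
    rw [Nat.testBit_shiftLeft, Bool.and_eq_true, decide_eq_true_eq, h.hu]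
    constructor
    · rintro ⟨h1, h2, h3⟩
      exact ⟨s - n, h3, h2, by omega⟩
    · rintro ⟨x, h1, h2, rfl⟩
      rw [Nat.add_sub_cancel]
      exact ⟨by omega, h2, h1⟩
  constructor
  · intro i
    show (u ||| (1 <<< n)).testBit i = true ↔ _
    rw [Nat.testBit_or, Bool.or_eq_true, h.hu, Nat.one_shiftLeft, Nat.testBit_two_pow,
      decide_eq_true_eq]
    constructor
    · rintro (⟨h1, h2⟩ | h1)
      · exact ⟨h1, by omega⟩
      · subst h1
        exact ⟨hn, by omega⟩
    · rintro ⟨h1, h2⟩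
      rcases Nat.lt_or_ge i n with h3 | h3
      · exact Or.inl ⟨h1, h3⟩
      · exact Or.inr (by omega)
  · intro s
    show (o ||| (u <<< n)).testBit s = true ↔ _
    rw [Nat.testBit_or, Bool.or_eq_true, h.ho, hsh]
    constructor
    · rintro (⟨x, y, h1, h2, h3⟩ | ⟨x, h1, h2, h3⟩)
      · exact ⟨x, y, h1, by omega, h3⟩
      · exact ⟨x, n, h1, by omega, h2, hn, h3⟩
    · rintro ⟨x, y, h1, h2, h3, h4, h5⟩
      rcases Nat.lt_or_ge y n with h6 | h6
      · exact Or.inl ⟨x, y, h1, h6, h3, h4, h5⟩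
      · have : y = n := by omega
        subst this
        exact Or.inr ⟨x, h1, h3, h5⟩
  · intro s
    show (m ||| (o &&& (u <<< n))).testBit s = true ↔ _
    rw [Nat.testBit_or, Bool.or_eq_true, Nat.testBit_and, Bool.and_eq_true, h.hm, h.ho, hsh]
    constructor
    · rintro (⟨x, y, x', y', h1, h2, h3, h4, h5, h6, h7, h8⟩ | ⟨⟨x, y, h1, h2, h3, h4, h5⟩, x', h6, h7, h8⟩)
      · exact ⟨x, y, x', y', h1, by omega, h3, h4, h5, h6, by omega, h8⟩
      · exact ⟨x, y, x', n, h1, by omega, h3, h4, h5, h6, by omega, h7, hn, h8, h2⟩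
    · rintro ⟨x, y, x', y', h1, h2, h3, h4, h5, h6, h7, h8, h9, h10, h11⟩
      rcases Nat.lt_or_ge y' n with h12 | h12
      · exact Or.inl ⟨x, y, x', y', h1, by omega, h3, h4, h5, h6, h12, h8, h9, h10, h11⟩
      · have : y' = n := by omega
        subst this
        exact Or.inr ⟨⟨x, y, h1, h11, h3, h4, h5⟩, x', h6, h8, h10⟩

theorem loop_sound {U : ℕ → Prop} (h : UlamSet U) (q1 q2 : ℕ) :
    ∀ k n u o m : ℕ, 3 ≤ n → Inv U n u o m → loop q1 q2 k n u o m = true →
      (q1 < n + k → ¬ U q1) ∧ (¬ Once U (n + k) q1) ∧ (q2 < n + k → ¬ U q2) ∧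
        (¬ Once U (n + k) q2) := by
  intro k
  induction k with
  | zero =>
    intro n u o m _ hI hl
    simp only [loop, Bool.and_eq_true, Bool.not_eq_true', ← Bool.not_eq_true, bit_iff] at hl
    obtain ⟨⟨⟨h1, h2⟩, h3⟩, h4⟩ := hl
    rw [hI.hu] at h1 h3
    rw [hI.ho] at h2 h4
    exact ⟨fun g1 g2 => h1 ⟨g2, g1⟩, h2, fun g1 g2 => h3 ⟨g2, g1⟩, h4⟩
  | succ k ih =>
    intro n u o m hn hI hl
    have e : n + (k + 1) = n + 1 + k := by omega
    rw [e]
    rw [loop] at hl
    cases hb : (bit o n && !(bit m n)) with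
    | true =>
      rw [hb] at hl
      simp only at hl
      rw [Bool.and_eq_true, Bool.not_eq_true', ← Bool.not_eq_true, bit_iff, bit_iff, hI.ho,
        hI.hm] at hb
      exact ih _ _ _ _ (by omega) (hI.next_true ((ulam_iff h hn).2 hb)) hl
    | false =>
      rw [hb] at hl
      simp only at hl
      have hb' : ¬ (bit o n = true ∧ ¬ bit m n = true) := by
        rintro ⟨g1, g2⟩
        rw [g1] at hb
        rw [Bool.not_eq_true] at g2
        rw [g2] at hb
        exact absurd hb (by decide)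
      rw [bit_iff, bit_iff, hI.ho, hI.hm, ← ulam_iff h hn] at hb'
      exact ih _ _ _ _ (by omega) (hI.next_false hb') hl

theorem inv_start {U : ℕ → Prop} (h : UlamSet U) : Inv U 3 6 8 0 := by
  have h0 : ¬ U 0 := fun g => by have := h.pos 0 g; omega
  have key : ∀ x y, x < y → y < 3 → U x → x = 1 ∧ y = 2 := by
    intro x y h1 h2 h3
    have := h.pos x h3
    omega
  constructor
  · intro i
    rcases Nat.lt_or_ge i 3 with hi | hi
    · interval_cases i
      · simp [h0]
      · simp [h.one, show Nat.testBit 6 1 = true by decide]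
      · simp [h.two, show Nat.testBit 6 2 = true by decide]
    · have : Nat.testBit 6 i = false := Nat.testBit_lt_two_pow
        (lt_of_lt_of_le (by norm_num : 6 < 2 ^ 3) (Nat.pow_le_pow_right (by norm_num) hi))
      rw [this]
      constructor
      · intro g; exact absurd g (by decide)
      · rintro ⟨_, g⟩; omega
  · intro s
    constructor
    · intro g
      have hs : s = 3 := by
        by_contra hne
        rcases Nat.lt_or_ge s 4 with hi | hi
        · interval_cases s
          · exact absurd g (by decide)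
          · exact absurd g (by decide)
          · exact absurd g (by decide)
          · exact hne rfl
        · have : Nat.testBit 8 s = false := Nat.testBit_lt_two_pow
            (lt_of_lt_of_le (by norm_num : 8 < 2 ^ 4) (Nat.pow_le_pow_right (by norm_num) hi))
          rw [this] at g
          exact absurd g (by decide)
      subst hs
      exact ⟨1, 2, by norm_num, by norm_num, h.one, h.two, rfl⟩
    · rintro ⟨x, y, h1, h2, h3, h4, h5⟩
      obtain ⟨rfl, rfl⟩ := key x y h1 h2 h3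
      subst h5
      decide
  · intro s
    rw [Nat.zero_testBit]
    constructor
    · intro g; exact absurd g (by decide)
    · rintro ⟨x, y, x', y', h1, h2, h3, h4, h5, h6, h7, h8, h9, h10, h11⟩
      have := key x y h1 h2 h3
      have := key x' y' h6 h7 h8
      omega

set_option maxRecDepth 100000 in
theorem check : loop 3571 6765 6763 3 6 8 0 = true := by
  decide +kernel

theorem not_sum {U : ℕ → Prop} (h : UlamSet U) {q N : ℕ} (h1 : ¬ U q) (h2 : ¬ Once U N q)
    (hq : q < N) : ¬ (U q ∨ ∃ x y, x < y ∧ U x ∧ U y ∧ x + y = q) := by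
  rintro (g | ⟨x, y, g1, g2, g3, g4⟩)
  · exact h1 g
  · exact h2 ⟨x, y, g1, by have := h.pos x g2; omega, g2, g3, g4⟩

/-- **Zeitlin's conjecture fails**, for the Lucas numbers as well as for the Fibonacci numbers.
The Ulam sequence exists, and neither the Lucas number `L_17 = 3571` nor the Fibonacci number
`F_20 = 6765` is an Ulam number or a sum of two distinct Ulam numbers. -/
theorem result :
    (∃ u, IsUlam u) ∧ ∀ u, IsUlam u →
      ¬ SumOfAtMostTwo u (lucas 17) ∧ ¬ SumOfAtMostTwo u (Nat.fib 20) := by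
  refine ⟨exists_isUlam, fun u hu => ?_⟩
  have hU := hu.ulamSet
  obtain ⟨h1, h2, h3, h4⟩ := loop_sound hU 3571 6765 6763 3 6 8 0 le_rfl (inv_start hU) check
  have e1 : lucas 17 = 3571 := by decide
  have e2 : Nat.fib 20 = 6765 := by decide
  rw [e1, e2]
  have conv : ∀ q, SumOfAtMostTwo u q → ((∃ i, 1 ≤ i ∧ u i = q) ∨
      ∃ x y, x < y ∧ (∃ i, 1 ≤ i ∧ u i = x) ∧ (∃ i, 1 ≤ i ∧ u i = y) ∧ x + y = q) := by
    rintro q (g | ⟨i, j, hi, hij, hs⟩)
    · exact Or.inl g
    · exact Or.inr ⟨u i, u j, hu.lt_of_lt hi hij, ⟨i, hi, rfl⟩, ⟨j, by omega, rfl⟩, hs⟩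
  exact ⟨fun g => not_sum hU (h1 (by norm_num)) h2 (by norm_num) (conv _ g),
    fun g => not_sum hU (h3 (by norm_num)) h4 (by norm_num) (conv _ g)⟩

end Pool.Agent.Results.MP_7bafff_nt.Counterexamples
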